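import Pool.Agent.Lib.MP_a7239a_co.Q3.K3

/-!
# The three column case: the critical case, first half
-/

open scoped Pointwise
open Finset

set_option linter.unusedSectionVars false

namespace Pool.Agent.Lib.MPa7239a.Q3

universe u v w

variable {G : Type u} [AddCommGroup G] [Fintype G] [DecidableEq G]
variable {D : Type v} [AddCommGroup D] [Fintype D] [DecidableEq D]

theorem exists_quot (H : AddSubgroup G) :
    ∃ (D : Type u) (_ : AddCommGroup D) (_ : Fintype D) (_ : DecidableEq D) (π : G →+ D),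
      Function.Surjective π ∧ (∀ a b, π a = π b ↔ a - b ∈ H) ∧
      (∀ d, (fib π d).card = (hs H).card) ∧
      ∀ A : Finset G, (A.image π).card * (hs H).card = (cl H A).card := by
  classical
  have : Fintype (G ⧸ H) := Fintype.ofFinite _
  set π : G →+ (G ⧸ H) := QuotientAddGroup.mk' H with hπ
  have hsurj : Function.Surjective π := QuotientAddGroup.mk'_surjective H
  have hker : ∀ a b : G, π a = π b ↔ a - b ∈ H := by
    intro a b
    have h1 : π a = π b ↔ π (a - b) = 0 := by
      rw [map_sub, sub_eq_zero]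
    rw [h1, hπ, QuotientAddGroup.mk'_apply, QuotientAddGroup.eq_zero_iff]
  have hfib : ∀ d : G ⧸ H, (fib π d).card = (hs H).card := by
    intro d
    obtain ⟨g, rfl⟩ := hsurj d
    rw [← card_cs H g]
    congr 1
    ext a
    rw [mem_fib, mem_cs, ← hker]
  refine ⟨G ⧸ H, inferInstance, this, inferInstance, π, hsurj, hker, hfib, ?_⟩
  intro A
  rw [← card_filter_image hfib]
  congr 1
  ext g
  rw [mem_cl, mem_filter, mem_image]
  constructor
  · rintro ⟨-, a, ha, hga⟩
    exact ⟨a, ha, (hker g a).1 hga.symm⟩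
  · rintro ⟨a, ha, hga⟩
    exact ⟨mem_univ _, a, ha, ((hker g a).2 hga).symm⟩

/-- critical sets in `D` -/
theorem exists_crit_aux {P : Finset D} {y : D} {N : ℕ} (hD : Fintype.card D = 3 * N)
    (hP : P.card = N + 1) (hy : ∀ a ∈ P, ∀ b ∈ P, ∀ c ∈ P, a + b + c ≠ y) :
    ∃ (Q : Type v) (_ : AddCommGroup Q) (_ : Fintype Q) (_ : DecidableEq Q) (ρ : D →+ Q),
      Function.Surjective ρ ∧ 3 * (P.image ρ).card = Fintype.card Q + 1 ∧
      ∀ z, z ≠ ρ y ↔ ∃ a ∈ P.image ρ, ∃ b ∈ P.image ρ, ∃ c ∈ P.image ρ, a + b + c = z := by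
  classical
  have hne : P.Nonempty := by
    rw [← card_pos]
    omega
  set X := P + (List.sum [P, P]) with hX
  have hXe : X = P + (P + P) := by
    rw [hX, List.sum_cons, List.sum_singleton]
  have hXn : X.Nonempty := by
    rw [hXe]
    exact hne.add (hne.add hne)
  have hmX : ∀ z, z ∈ X ↔ ∃ a ∈ P, ∃ b ∈ P, ∃ c ∈ P, a + b + c = z := by
    intro z
    rw [hXe, Finset.mem_add]
    constructor
    · rintro ⟨a, ha, b, hb, rfl⟩
      rw [Finset.mem_add] at hb
      obtain ⟨b, hb, c, hc, rfl⟩ := hb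
      exact ⟨a, ha, b, hb, c, hc, by abel⟩
    · rintro ⟨a, ha, b, hb, c, hc, rfl⟩
      exact ⟨a, ha, b + c, Finset.add_mem_add hb hc, by abel⟩
  have hyX : y ∉ X := by
    intro hcon
    rw [hmX] at hcon
    obtain ⟨a, ha, b, hb, c, hc, h⟩ := hcon
    exact hy a ha b hb c hc h
  set K := st X with hK
  obtain ⟨Q, _, _, _, ρ, hρ, hker, hfib, hcard⟩ := exists_quot K
  have hpos : 0 < (hs K).card := card_hs_pos K
  have hq : (hs K).card * Fintype.card Q = 3 * N := by
    rw [← hD, ← hfib 0]
    exact card_fib hρ 0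
  have h1 := kneser_list [P, P] P hne (by
    intro Y hY
    simp only [List.mem_cons, List.not_mem_nil, or_false, or_self] at hY
    rw [hY]
    exact hne)
  rw [← hX, ← hK] at h1
  simp only [List.map_cons, List.map_nil, List.sum_cons, List.sum_nil, add_zero,
    List.length_cons, List.length_nil, zero_add] at h1
  have hdis : Disjoint X (cs K y) := by
    rw [Finset.disjoint_left]
    intro g hg hg'
    rw [mem_cs] at hg'
    apply hyX
    have h5 := per_st X g hg (-(g - y)) (K.neg_mem hg')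
    have : g + -(g - y) = y := by abel
    rwa [this] at h5
  have h2 : X.card + (hs K).card ≤ 3 * N := by
    rw [← hD, ← card_cs K y, ← card_union_of_disjoint hdis]
    exact card_le_univ _
  rw [← hcard P] at h1
  have h3 : N + 1 ≤ (P.image ρ).card * (hs K).card := by
    rw [hcard, ← hP]
    exact card_le_card (subset_cl K P)
  have h4 : 3 * (P.image ρ).card ≤ Fintype.card Q + 1 := by
    have e1 : (3 * (P.image ρ).card) * (hs K).card ≤ (Fintype.card Q + 1) * (hs K).card := by
      have e2 : (3 * (P.image ρ).card) * (hs K).card = 3 * ((P.image ρ).card * (hs K).card) := by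
        ring
      have e3 : (Fintype.card Q + 1) * (hs K).card = 3 * N + (hs K).card := by
        rw [← hq]
        ring
      rw [e2, e3]
      omega
    exact Nat.le_of_mul_le_mul_right e1 hpos
  have h5 : Fintype.card Q + 1 ≤ 3 * (P.image ρ).card := by
    by_contra hcon
    have e0 : 3 * (P.image ρ).card ≤ Fintype.card Q := by omega
    have e1 := Nat.mul_le_mul_right (hs K).card e0
    have e2 : (3 * (P.image ρ).card) * (hs K).card = 3 * ((P.image ρ).card * (hs K).card) := by
      ring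
    have e3 : Fintype.card Q * (hs K).card = 3 * N := by
      rw [← hq]
      ring
    rw [e2, e3] at e1
    omega
  have h6 : 3 * (P.image ρ).card = Fintype.card Q + 1 := le_antisymm h4 h5
  refine ⟨Q, inferInstance, inferInstance, inferInstance, ρ, hρ, h6, ?_⟩
  have h7 : X ∪ cs K y = univ := by
    apply eq_univ_of_card
    rw [card_union_of_disjoint hdis, card_cs]
    have e2 : 3 * ((P.image ρ).card * (hs K).card) = 3 * N + (hs K).card := by
      calc 3 * ((P.image ρ).card * (hs K).card) = (3 * (P.image ρ).card) * (hs K).card := by ring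
        _ = (Fintype.card Q + 1) * (hs K).card := by rw [h6]
        _ = (hs K).card * Fintype.card Q + (hs K).card := by ring
        _ = 3 * N + (hs K).card := by rw [hq]
    omega
  intro z
  constructor
  · intro hz
    obtain ⟨d, rfl⟩ := hρ z
    have h8 : d ∈ X ∪ cs K y := by
      rw [h7]
      exact mem_univ _
    rw [mem_union, mem_cs, ← hker] at h8
    rcases h8 with h8 | h8
    · rw [hmX] at h8
      obtain ⟨a, ha, b, hb, c, hc, rfl⟩ := h8
      exact ⟨ρ a, mem_image_of_mem ρ ha, ρ b, mem_image_of_mem ρ hb, ρ c, mem_image_of_mem ρ hc, by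
        rw [map_add, map_add]⟩
    · exact absurd h8 hz
  · rintro ⟨a', ha', b', hb', c', hc', rfl⟩ hcon
    obtain ⟨a, ha, rfl⟩ := mem_image.1 ha'
    obtain ⟨b, hb, rfl⟩ := mem_image.1 hb'
    obtain ⟨c, hc, rfl⟩ := mem_image.1 hc'
    rw [← map_add, ← map_add, hker] at hcon
    apply hyX
    have h9 : a + b + c ∈ X := (hmX _).2 ⟨a, ha, b, hb, c, hc, rfl⟩
    have h5 := per_st X _ h9 (-(a + b + c - y)) (K.neg_mem hcon)
    have : a + b + c + -(a + b + c - y) = y := by abel
    rwa [this] at h5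

theorem exists_crit {π : G →+ D} {A : Finset G} {x : G} {N h : ℕ} (S : Str π A x N h)
    (hc : triv (A.image π) (π x) = ∅) :
    ∃ (Q : Type v) (_ : AddCommGroup Q) (_ : Fintype Q) (_ : DecidableEq Q) (ρ : G →+ Q),
      Crit ρ A x := by
  classical
  have hy : ∀ a ∈ A.image π, ∀ b ∈ A.image π, ∀ c ∈ A.image π, a + b + c ≠ π x := by
    intro a ha b hb c hc' habc
    obtain ⟨rfl, rfl⟩ := S.tr a ha b hb c hc' habc
    have : a ∈ triv (A.image π) (π x) := mem_triv.2 ⟨ha, habc⟩
    rw [hc] at this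
    exact absurd this (notMem_empty _)
  obtain ⟨Q, _, _, _, ρ, hρ, h1, h2⟩ := exists_crit_aux S.card_D S.card_P hy
  refine ⟨Q, inferInstance, inferInstance, inferInstance, ρ.comp π, ?_, ?_, ?_⟩
  · exact hρ.comp S.surj
  · rw [← h1, image_image]
    rfl
  · intro z
    rw [image_image] at h2
    exact h2 z

section crit

variable {Q : Type v} [AddCommGroup Q] [Fintype Q] [DecidableEq Q]

theorem Crit.dvd {k : ℕ} {ρ : G →+ Q} {A : Finset G} {x : G} (C : Crit ρ A x)
    (hG : Fintype.card G = 9 * k) : Fintype.card Q ∣ k := by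
  have h1 : Fintype.card Q ∣ 9 * k := by
    rw [← hG]
    exact ⟨_, ((card_fib C.surj 0).symm.trans (mul_comm _ _))⟩
  have h2 : Nat.Coprime (Fintype.card Q) 9 := by
    have h3 := C.card_P
    have h4 : Nat.Coprime (Fintype.card Q) 3 := by
      rw [Nat.coprime_comm, Nat.Prime.coprime_iff_not_dvd Nat.prime_three]
      omega
    have : (9 : ℕ) = 3 ^ 2 := by norm_num
    rw [this]
    exact Nat.Coprime.pow_right 2 h4
  exact h2.dvd_of_dvd_mul_left h1

theorem Crit.card_fib_eq {k : ℕ} {ρ : G →+ Q} {A : Finset G} {x : G} (C : Crit ρ A x)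
    (hG : Fintype.card G = 9 * k) {r : ℕ} (hr : k = Fintype.card Q * r) (z : Q) :
    (fib ρ z).card = 9 * r := by
  have h1 := card_fib C.surj z
  have hpos : 0 < Fintype.card Q := Fintype.card_pos_iff.2 ⟨0⟩
  rw [hG, hr] at h1
  have h2 : (fib ρ z).card * Fintype.card Q = (9 * r) * Fintype.card Q := by
    rw [h1]
    ring
  exact Nat.eq_of_mul_eq_mul_right hpos h2

/-- the sum of the images -/
theorem map_sum_eq {ρ : G →+ Q} {A : Finset G} : ρ (∑ a ∈ A, a) =
    ∑ p ∈ A.image ρ, (part ρ A p).card • p := by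
  rw [map_sum]
  rw [← sum_fiberwise_of_maps_to (s := A) (t := A.image ρ) (g := ρ)
    (fun a ha => mem_image_of_mem ρ ha)]
  apply sum_congr rfl
  intro p _
  rw [← sum_const]
  apply sum_congr rfl
  intro a ha
  exact (mem_filter.1 ha).2

/-- `|Q| = 2` is impossible -/
theorem Crit.two {k : ℕ} {ρ : G →+ Q} {A : Finset G} (C : Crit ρ A (∑ a ∈ A, a))
    (hG : Fintype.card G = 9 * k) (hA : A.card = 3 * k + 3) (hQ : Fintype.card Q = 2) : False := by
  have h1 := C.card_P
  have h2 : (A.image ρ).card = 1 := by omega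
  obtain ⟨c, hc⟩ := card_eq_one.1 h2
  have h3 : ρ (∑ a ∈ A, a) = (3 * k + 3) • c := by
    rw [map_sum, ← hA, ← sum_const]
    apply sum_congr rfl
    intro a ha
    have := mem_image_of_mem ρ ha
    rw [hc, mem_singleton] at this
    exact this
  have h4 : (3 * k + 3) • c = c + c + c := by
    obtain ⟨r, hr⟩ := C.dvd hG
    have h5 : (2 : ℕ) • c = 0 := by
      rw [← hQ]
      exact card_nsmul_eq_zero
    have h6 : 3 * k + 3 = 2 * (3 * r) + 3 := by
      rw [hr, hQ]
      ring
    rw [h6, add_nsmul, mul_comm 2, mul_nsmul', h5, nsmul_zero, zero_add]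
    have : (3 : ℕ) • c = c + c + c := by
      rw [succ_nsmul, two_nsmul]
    exact this
  have h5 := (C.sums (c + c + c)).2 ⟨c, by rw [hc]; exact mem_singleton_self c, c, by
    rw [hc]; exact mem_singleton_self c, c, by rw [hc]; exact mem_singleton_self c, rfl⟩
  apply h5
  rw [h3, h4]

/-- without holes, the sum condition -/
theorem Crit.full {k : ℕ} {ρ : G →+ Q} {A : Finset G} {x : G} (C : Crit ρ A x)
    (hG : Fintype.card G = 9 * k) (hA : A.card = 3 * k + 3) (hQ : Fintype.card Q = k) :
    ρ (∑ a ∈ A, a) = 9 • ∑ p ∈ A.image ρ, p := by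
  classical
  have hf : ∀ z : Q, (fib ρ z).card = 9 := by
    intro z
    have := C.card_fib_eq hG (r := 1) (by rw [hQ, mul_one]) z
    rw [this]
  have h1 : ∀ p ∈ A.image ρ, (part ρ A p).card ≤ 9 := by
    intro p _
    rw [← hf p]
    exact card_le_card (part_subset p)
  have h2 : ∑ p ∈ A.image ρ, (part ρ A p).card = ∑ p ∈ A.image ρ, 9 := by
    rw [sum_card_part, hA, sum_const, smul_eq_mul]
    have := C.card_P
    rw [hQ] at this
    omega
  have h3 := (sum_eq_sum_iff_of_le h1).1 h2
  rw [map_sum_eq, smul_sum]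
  apply sum_congr rfl
  intro p hp
  rw [h3 p hp]

/-- `|Q| = k = 8` is impossible -/
theorem Crit.eight {ρ : G →+ Q} {A : Finset G} (C : Crit ρ A (∑ a ∈ A, a))
    (hG : Fintype.card G = 9 * 8) (hA : A.card = 3 * 8 + 3) (hQ : Fintype.card Q = 8) : False := by
  have h1 := C.full hG hA hQ
  have h2 : (A.image ρ).card = 3 := by
    have := C.card_P
    omega
  obtain ⟨a, b, c, hab, hac, hbc, hP⟩ := card_eq_three.1 h2
  have h3 : 9 • ∑ p ∈ A.image ρ, p = a + b + c := by
    have h4 : ∑ p ∈ A.image ρ, p = a + b + c := by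
      rw [hP, sum_insert (by simp [hab, hac]), sum_insert (by simp [hbc]), sum_singleton, add_assoc]
    have h5 : (8 : ℕ) • (a + b + c) = 0 := by
      rw [← hQ]
      exact card_nsmul_eq_zero
    rw [h4, show (9 : ℕ) = 8 + 1 from rfl, add_nsmul, h5, one_nsmul, zero_add]
  rw [h3] at h1
  have h5 := (C.sums (a + b + c)).2 ⟨a, by rw [hP]; simp, b, by rw [hP]; simp, c, by
    rw [hP]; simp, rfl⟩
  exact h5 h1.symm

end crit

end Pool.Agent.Lib.MPa7239a.Q3
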