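import Pool.Agent.Lib.MP_a7239a_co.Three

/-!
# The three column case: definitions
-/

open scoped Pointwise
open Finset

set_option linter.unusedSectionVars false

namespace Pool.Agent.Lib.MPa7239a.Q3

universe u v

variable {G : Type u} [AddCommGroup G] [Fintype G] [DecidableEq G]
variable {D : Type v} [AddCommGroup D] [Fintype D] [DecidableEq D]

/-- `x` is not a sum of three distinct elements of `A` -/
def No3 (A : Finset G) (x : G) : Prop :=
  ∀ a ∈ A, ∀ b ∈ A, ∀ c ∈ A, a ≠ b → a ≠ c → b ≠ c → a + b + c ≠ x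

/-- `x` is not a sum of four distinct elements of `A` -/
def No4 (A : Finset G) (x : G) : Prop :=
  ∀ a ∈ A, ∀ b ∈ A, ∀ c ∈ A, ∀ d ∈ A, a ≠ b → a ≠ c → a ≠ d → b ≠ c → b ≠ d → c ≠ d →
    a + b + c + d ≠ x

/-- `p + q + r = y` in `P` only for `p = q = r` -/
def TR (P : Finset D) (y : D) : Prop :=
  ∀ p ∈ P, ∀ q ∈ P, ∀ r ∈ P, p + q + r = y → p = q ∧ q = r

/-- the part of `A` over `p` -/
def part (π : G →+ D) (A : Finset G) (p : D) : Finset G := A.filter (fun a => π a = p)

theorem mem_part {π : G →+ D} {A : Finset G} {p : D} {a : G} :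
    a ∈ part π A p ↔ a ∈ A ∧ π a = p := by
  simp [part]

/-- the structure that Kneser's theorem gives: all fibres of `π : G → D` have `h` elements,
`|D| = 3 N`, the image of `A` has `N + 1` elements and `A` has `N h + 3` elements -/
structure Str (π : G →+ D) (A : Finset G) (x : G) (N h : ℕ) : Prop where
  surj : Function.Surjective π
  card_fib : ∀ d : D, (fib π d).card = h
  three_le : 3 ≤ h
  card_D : Fintype.card D = 3 * N
  card_P : (A.image π).card = N + 1
  card_A : A.card = N * h + 3
  no3 : No3 A x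

/-- the critical case: the image `P` of `A` has `(q + 1) / 3` elements, `q = |Q|`, and the
sums of three elements of `P` are exactly the elements different from `ρ x` -/
structure Crit {Q : Type v} [AddCommGroup Q] [Fintype Q] [DecidableEq Q] (ρ : G →+ Q)
    (A : Finset G) (x : G) : Prop where
  surj : Function.Surjective ρ
  card_P : 3 * (A.image ρ).card = Fintype.card Q + 1
  sums : ∀ z : Q, z ≠ ρ x ↔ ∃ a ∈ A.image ρ, ∃ b ∈ A.image ρ, ∃ c ∈ A.image ρ, a + b + c = z

/-- the elements `s` of `P` with `3 s = y` -/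
def triv (P : Finset D) (y : D) : Finset D := P.filter (fun p => p + p + p = y)

theorem mem_triv {P : Finset D} {y p : D} : p ∈ triv P y ↔ p ∈ P ∧ p + p + p = y := by
  simp [triv]

end Pool.Agent.Lib.MPa7239a.Q3
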