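import Pool.Agent.Lib.MP_a7239a_co.Q3.Defs

/-!
# The three column case: the structure from Kneser's theorem
-/

open scoped Pointwise
open Finset

set_option linter.unusedSectionVars false

namespace Pool.Agent.Lib.MPa7239a.Q3

universe u v

variable {G : Type u} [AddCommGroup G] [Fintype G] [DecidableEq G]
variable {D : Type v} [AddCommGroup D] [Fintype D] [DecidableEq D]

theorem add_le_of_dvd {h a b : ℕ} (ha : h ∣ a) (hb : h ∣ b) (hab : a < b) : a + h ≤ b := by
  obtain ⟨c, rfl⟩ := ha
  obtain ⟨d, rfl⟩ := hb
  have h1 : c < d := by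
    by_contra hcon
    have : h * d ≤ h * c := Nat.mul_le_mul_left _ (by omega)
    omega
  calc h * c + h = h * (c + 1) := by ring
    _ ≤ h * d := Nat.mul_le_mul_left _ h1

theorem per_fib {H : AddSubgroup G} (φ : G →+ D) (hH : ∀ u ∈ H, φ u = 0) (d : D) :
    Per H (fib φ d) := by
  intro a ha u hu
  rw [mem_fib] at ha ⊢
  rw [map_add, ha, hH u hu, add_zero]

theorem exists_H {κ : ℕ} (hG : Fintype.card G = 3 * κ) (φ : G →+ ZMod 3)
    (hφ : Function.Surjective φ) {A : Finset G} {x : G} (hx : φ x = 0) (hA : A.card = κ + 3)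
    (hno : No3 A x) :
    ∃ H : AddSubgroup G, (hs H).card ∣ κ ∧ (cl H A).card = κ + (hs H).card := by
  classical
  have hfib : ∀ i : ZMod 3, (fib φ i).card = κ := by
    intro i
    have h1 := card_fib hφ i
    rw [hG, ZMod.card] at h1
    omega
  have hgen : ∀ H : AddSubgroup G, (∀ u ∈ H, φ u = 0) → (cl H A).card ≤ κ + (hs H).card →
      (hs H).card ∣ κ ∧ (cl H A).card = κ + (hs H).card := by
    intro H hH hle
    have hd : (hs H).card ∣ κ := by
      rw [← hfib 0]
      apply dvd_card_of_per
      intro a ha u hu
      rw [mem_fib] at ha ⊢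
      rw [map_add, ha, hH u hu, add_zero]
    refine ⟨hd, le_antisymm hle ?_⟩
    apply add_le_of_dvd hd (dvd_card_of_per (per_cl H A))
    have h2 := card_le_card (subset_cl H A)
    omega
  by_cases hem : ∃ i : ZMod 3, ∀ a ∈ A, φ a ≠ i
  · obtain ⟨i, hi⟩ := hem
    refine ⟨φ.ker, hgen _ (fun u hu => hu) ?_⟩
    have h1 : (hs φ.ker).card = κ := by
      rw [← hfib 0]
      congr 1
      ext g
      rw [mem_hs, mem_fib, AddMonoidHom.mem_ker]
    have h2 : Disjoint (cl φ.ker A) (fib φ i) := by
      rw [Finset.disjoint_left]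
      intro g hg hg'
      rw [mem_cl] at hg
      rw [mem_fib] at hg'
      obtain ⟨a, ha, hga⟩ := hg
      apply hi a ha
      rw [AddMonoidHom.mem_ker, map_sub, hg', sub_eq_zero] at hga
      exact hga.symm
    have h3 : (cl φ.ker A ∪ fib φ i).card ≤ Fintype.card G := card_le_univ _
    rw [card_union_of_disjoint h2, hfib, hG] at h3
    omega
  · push Not at hem
    have hne : ∀ i : ZMod 3, (part φ A i).Nonempty := by
      intro i
      obtain ⟨a, ha, hai⟩ := hem i
      exact ⟨a, mem_part.2 ⟨ha, hai⟩⟩
    set X := part φ A 0 + (List.sum [part φ A 1, part φ A 2]) with hX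
    have hXe : X = part φ A 0 + (part φ A 1 + part φ A 2) := by
      rw [hX, List.sum_cons, List.sum_singleton]
    have hXn : X.Nonempty := by
      rw [hXe]
      exact (hne 0).add ((hne 1).add (hne 2))
    have hXf : ∀ g ∈ X, φ g = 0 := by
      intro g hg
      rw [hXe, Finset.mem_add] at hg
      obtain ⟨a, ha, b, hb, rfl⟩ := hg
      rw [Finset.mem_add] at hb
      obtain ⟨b, hb, c, hc, rfl⟩ := hb
      rw [mem_part] at ha hb hc
      rw [map_add, map_add, ha.2, hb.2, hc.2]
      decide
    have hxX : x ∉ X := by
      intro hg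
      rw [hXe, Finset.mem_add] at hg
      obtain ⟨a, ha, b, hb, hab⟩ := hg
      rw [Finset.mem_add] at hb
      obtain ⟨b, hb, c, hc, rfl⟩ := hb
      rw [mem_part] at ha hb hc
      apply hno a ha.1 b hb.1 c hc.1
      · rintro rfl
        rw [ha.2] at hb
        exact absurd hb.2 (by decide)
      · rintro rfl
        rw [ha.2] at hc
        exact absurd hc.2 (by decide)
      · rintro rfl
        rw [hb.2] at hc
        exact absurd hc.2 (by decide)
      · rw [← hab, add_assoc]
    set K := st X with hK
    have hKk : ∀ u ∈ K, φ u = 0 := by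
      intro u hu
      obtain ⟨g, hg⟩ := hXn
      have h1 := hXf (g + u) (per_st X g hg u hu)
      rw [map_add, hXf g hg, zero_add] at h1
      exact h1
    refine ⟨K, hgen K hKk ?_⟩
    have h1 := kneser_list [part φ A 1, part φ A 2] (part φ A 0) (hne 0) (by
      intro Y hY
      simp only [List.mem_cons, List.not_mem_nil, or_false] at hY
      rcases hY with rfl | rfl
      · exact hne 1
      · exact hne 2)
    rw [← hX, ← hK] at h1
    simp only [List.map_cons, List.map_nil, List.sum_cons, List.sum_nil, add_zero,
      List.length_cons, List.length_nil, zero_add] at h1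
    have h2 : (cl K A).card ≤ (cl K (part φ A 0)).card + ((cl K (part φ A 1)).card +
        (cl K (part φ A 2)).card) := by
      have h3 : cl K A ⊆ cl K (part φ A 0) ∪ (cl K (part φ A 1) ∪ cl K (part φ A 2)) := by
        intro g hg
        rw [mem_cl] at hg
        obtain ⟨a, ha, hga⟩ := hg
        rw [mem_union, mem_union, mem_cl, mem_cl, mem_cl]
        have h4 : ∀ i : ZMod 3, i = 0 ∨ i = 1 ∨ i = 2 := by decide
        rcases h4 (φ a) with h | h | h
        · exact Or.inl ⟨a, mem_part.2 ⟨ha, h⟩, hga⟩
        · exact Or.inr (Or.inl ⟨a, mem_part.2 ⟨ha, h⟩, hga⟩)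
        · exact Or.inr (Or.inr ⟨a, mem_part.2 ⟨ha, h⟩, hga⟩)
      have h5 := card_le_card h3
      have h6 := card_union_le (cl K (part φ A 0)) (cl K (part φ A 1) ∪ cl K (part φ A 2))
      have h7 := card_union_le (cl K (part φ A 1)) (cl K (part φ A 2))
      omega
    have h3 : X.card + (hs K).card ≤ κ := by
      have h4 : Disjoint X (cs K x) := by
        rw [Finset.disjoint_left]
        intro g hg hg'
        rw [mem_cs] at hg'
        apply hxX
        have h5 := per_st X g hg (-(g - x)) (K.neg_mem hg')
        have : g + -(g - x) = x := by abel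
        rwa [this] at h5
      have h5 : X ∪ cs K x ⊆ fib φ 0 := by
        intro g hg
        rw [mem_union] at hg
        rw [mem_fib]
        rcases hg with hg | hg
        · exact hXf g hg
        · rw [mem_cs] at hg
          have := hKk _ hg
          rw [map_sub, hx, sub_zero] at this
          exact this
      have h6 := card_le_card h5
      rw [card_union_of_disjoint h4, card_cs, hfib] at h6
      exact h6
    omega

theorem card_filter_image {π : G →+ D} {h : ℕ} (hf : ∀ d : D, (fib π d).card = h)
    (P : Finset D) : (univ.filter (fun g => π g ∈ P)).card = P.card * h := by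
  have h1 : univ.filter (fun g => π g ∈ P) = P.biUnion (fun d => fib π d) := by
    ext g
    simp only [mem_filter, mem_univ, true_and, mem_biUnion, mem_fib]
    exact ⟨fun hg => ⟨_, hg, rfl⟩, fun ⟨d, hd, hgd⟩ => hgd ▸ hd⟩
  rw [h1, card_biUnion, sum_congr rfl (fun d _ => hf d), sum_const, smul_eq_mul]
  intro d _ d' _ hdd
  rw [Function.onFun, Finset.disjoint_left]
  intro g hg hg'
  rw [mem_fib] at hg hg'
  exact hdd (hg.symm.trans hg')

theorem exists_str {κ : ℕ} (hκ : 0 < κ) (hG : Fintype.card G = 3 * κ) (φ : G →+ ZMod 3)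
    (hφ : Function.Surjective φ) {A : Finset G} {x : G} (hx : φ x = 0) (hA : A.card = κ + 3)
    (hno : No3 A x) :
    ∃ (D : Type u) (_ : AddCommGroup D) (_ : Fintype D) (_ : DecidableEq D) (π : G →+ D)
      (N h : ℕ), Str π A x N h ∧ κ = N * h := by
  classical
  obtain ⟨H, ⟨N, hN⟩, hcl⟩ := exists_H hG φ hφ hx hA hno
  set h := (hs H).card with hh
  have hpos : 0 < h := card_hs_pos H
  have hNh : κ = N * h := by rw [hN, mul_comm]
  have : Fintype (G ⧸ H) := Fintype.ofFinite _
  set π : G →+ (G ⧸ H) := QuotientAddGroup.mk' H with hπ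
  have hsurj : Function.Surjective π := QuotientAddGroup.mk'_surjective H
  have hker : ∀ a b : G, π a = π b ↔ b - a ∈ H := by
    intro a b
    rw [hπ, QuotientAddGroup.mk'_apply, QuotientAddGroup.mk'_apply, QuotientAddGroup.eq,
      sub_eq_add_neg, add_comm]
  have hfib : ∀ d : G ⧸ H, (fib π d).card = h := by
    intro d
    obtain ⟨g, rfl⟩ := hsurj d
    rw [hh, ← card_cs H g]
    congr 1
    ext a
    rw [mem_fib, mem_cs, ← hker]
    exact eq_comm
  refine ⟨G ⧸ H, inferInstance, this, inferInstance, π, N, h, ⟨hsurj, hfib, ?_, ?_, ?_, ?_, hno⟩,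
    hNh⟩
  · have h1 := card_le_card (subset_cl H A)
    omega
  · have h1 := card_fib hsurj (0 : G ⧸ H)
    rw [hfib, hG, hNh] at h1
    have h2 : h * Fintype.card (G ⧸ H) = h * (3 * N) := by
      rw [h1]
      ring
    exact Nat.eq_of_mul_eq_mul_left hpos h2
  · have h1 : cl H A = univ.filter (fun g => π g ∈ A.image π) := by
      ext g
      rw [mem_cl, mem_filter, mem_image]
      constructor
      · rintro ⟨a, ha, hga⟩
        exact ⟨mem_univ _, a, ha, (hker a g).2 hga⟩
      · rintro ⟨-, a, ha, hga⟩
        exact ⟨a, ha, (hker a g).1 hga⟩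
    rw [h1, card_filter_image hfib, hNh] at hcl
    have h2 : (A.image π).card * h = (N + 1) * h := by
      rw [hcl]
      ring
    exact Nat.eq_of_mul_eq_mul_right hpos h2
  · rw [hA, hNh]

section str

variable {π : G →+ D} {A : Finset G} {x : G} {N h : ℕ}

theorem part_subset (p : D) : part π A p ⊆ fib π p := by
  intro a ha
  rw [mem_part] at ha
  rw [mem_fib]
  exact ha.2

theorem Str.part_le (S : Str π A x N h) (p : D) : (part π A p).card ≤ h := by
  rw [← S.card_fib p]
  exact card_le_card (part_subset p)

theorem sum_card_part : ∑ p ∈ A.image π, (part π A p).card = A.card := by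
  symm
  apply card_eq_sum_card_fiberwise
  intro a ha
  exact mem_coe.2 (mem_image_of_mem π ha)

theorem Str.sum_part (S : Str π A x N h) :
    ∑ p ∈ A.image π, (h - (part π A p).card) = h - 3 := by
  have h1 : ∑ p ∈ A.image π, (h - (part π A p).card) + ∑ p ∈ A.image π, (part π A p).card =
      ∑ p ∈ A.image π, h := by
    rw [← sum_add_distrib]
    apply sum_congr rfl
    intro p _
    have := S.part_le p
    omega
  rw [sum_card_part, S.card_A, sum_const, S.card_P, smul_eq_mul, Nat.add_mul] at h1
  have := S.three_le
  omega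

theorem Str.part_ge (S : Str π A x N h) {p : D} (hp : p ∈ A.image π) :
    3 ≤ (part π A p).card := by
  have h1 := S.sum_part
  have h2 := single_le_sum (f := fun p => h - (part π A p).card) (fun p _ => Nat.zero_le _) hp
  have h3 := S.part_le p
  have h4 := S.three_le
  omega

theorem Str.part_two (S : Str π A x N h) {p q : D}
    (hp : p ∈ A.image π) (hq : q ∈ A.image π) (hpq : p ≠ q) :
    h + 3 ≤ (part π A p).card + (part π A q).card := by
  have h1 := S.sum_part
  have h2 := sum_le_sum_of_subset (f := fun p => h - (part π A p).card)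
    (show ({p, q} : Finset D) ⊆ A.image π by
      intro r hr
      rw [mem_insert, mem_singleton] at hr
      rcases hr with rfl | rfl
      · exact hp
      · exact hq)
  rw [sum_pair hpq] at h2
  have h3 := S.part_le p
  have h4 := S.part_le q
  have h5 := S.three_le
  omega

/-- number of representations as a sum over two classes -/
theorem reps_ge {p q : D} {w : G} (hw : π w = p + q) (hf : (fib π p).card = h) {X Y : Finset G}
    (hX : X ⊆ fib π p) (hY : Y ⊆ fib π q) :
    X.card + Y.card ≤ h + (X.filter (fun a => w - a ∈ Y)).card := by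
  have h1 : (Y.image (fun b => w - b)).card = Y.card :=
    card_image_of_injective _ sub_right_injective
  have h2 : X ∪ Y.image (fun b => w - b) ⊆ fib π p := by
    intro a ha
    rw [mem_union, mem_image] at ha
    rcases ha with ha | ⟨b, hb, rfl⟩
    · exact hX ha
    · have := hY hb
      rw [mem_fib] at this
      rw [mem_fib, map_sub, hw, this]
      abel
  have h3 : X ∩ Y.image (fun b => w - b) ⊆ X.filter (fun a => w - a ∈ Y) := by
    intro a ha
    rw [mem_inter, mem_image] at ha
    obtain ⟨ha, b, hb, hab⟩ := ha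
    rw [mem_filter]
    refine ⟨ha, ?_⟩
    have : w - a = b := by rw [← hab]; abel
    rw [this]
    exact hb
  have h4 := card_le_card h2
  have h5 := card_le_card h3
  have h6 := card_union_add_card_inter X (Y.image (fun b => w - b))
  omega

theorem Str.reps (S : Str π A x N h) {p q : D}
    (hp : p ∈ A.image π) (hq : q ∈ A.image π) (hpq : p ≠ q) {w : G} (hw : π w = p + q) :
    3 ≤ ((part π A p).filter (fun a => w - a ∈ part π A q)).card := by
  have h1 := reps_ge hw (S.card_fib p) (part_subset (A := A) p) (part_subset (A := A) q)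
  have h2 := S.part_two hp hq hpq
  omega

theorem Str.tr_aux (S : Str π A x N h) {p q r : D}
    (hp : p ∈ A.image π) (hq : q ∈ A.image π) (hr : r ∈ A.image π) (hpq : p + q + r = π x) :
    q = r := by
  by_contra hqr
  obtain ⟨a, ha, hap⟩ := mem_image.1 hp
  have hw : π (x - a) = q + r := by
    rw [map_sub, ← hpq, hap]
    abel
  have h1 := S.reps hq hr hqr hw
  have h2 : ((((part π A q).filter (fun b => x - a - b ∈ part π A r)).erase a).erase
      (x - a - a)).Nonempty := by
    rw [← card_pos]
    by_cases haq : q = p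
    · -- then `x - a - a` cannot be in the class of `q`
      have h3 : x - a - a ∉ (part π A q).filter (fun b => x - a - b ∈ part π A r) := by
        intro hcon
        rw [mem_filter, mem_part] at hcon
        have h4 := hcon.1.2
        rw [map_sub, hw, hap, ← haq] at h4
        apply hqr
        have : q + r - q = r := by abel
        rw [this] at h4
        exact h4.symm
      have h4 := pred_card_le_card_erase (s := (part π A q).filter
        (fun b => x - a - b ∈ part π A r)) (a := a)
      rw [erase_eq_of_notMem (a := x - a - a) (by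
        intro hcon
        exact h3 (mem_of_mem_erase hcon))]
      omega
    · have h3 : a ∉ (part π A q).filter (fun b => x - a - b ∈ part π A r) := by
        intro hcon
        rw [mem_filter, mem_part] at hcon
        exact haq (hcon.1.2.symm.trans hap)
      rw [erase_eq_of_notMem h3]
      have h4 := pred_card_le_card_erase (s := (part π A q).filter
        (fun b => x - a - b ∈ part π A r)) (a := x - a - a)
      omega
  obtain ⟨b, hb⟩ := h2
  rw [mem_erase, mem_erase, mem_filter, mem_part, mem_part] at hb
  obtain ⟨hb1, hb2, ⟨hb3, hb4⟩, hb5, hb6⟩ := hb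
  refine S.no3 a ha b hb3 (x - a - b) hb5 (Ne.symm hb2) ?_ ?_ (by abel)
  · intro hcon
    apply hb1
    rw [eq_sub_iff_add_eq] at hcon ⊢
    rw [add_comm, hcon]
  · intro hcon
    apply hqr
    rw [← hb4, ← hb6, ← hcon]

theorem Str.tr (S : Str π A x N h) : TR (A.image π) (π x) := by
  intro p hp q hq r hr hpq
  refine ⟨?_, S.tr_aux hp hq hr hpq⟩
  apply S.tr_aux hr hp hq
  rw [← hpq]
  abel

end str

end Pool.Agent.Lib.MPa7239a.Q3
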